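import Mathlib

open Cardinal

universe u

namespace Pool.Agent.Results.MP_f0da7f_al.Count

/-- An ideal of the subspace lattice. -/
def IsIdl {F V : Type u} [Field F] [AddCommGroup V] [Module F V] (I : Set (Submodule F V)) : Prop :=
  ⊥ ∈ I ∧ ⊤ ∉ I ∧ (∀ U ∈ I, ∀ W, W ≤ U → W ∈ I) ∧ ∀ U ∈ I, ∀ W ∈ I, U ⊔ W ∈ I

/-- A filter on the subspace lattice. -/
def IsFil {F V : Type u} [Field F] [AddCommGroup V] [Module F V] (I : Set (Submodule F V)) : Prop :=
  ⊤ ∈ I ∧ ⊥ ∉ I ∧ (∀ U ∈ I, ∀ W, U ≤ W → W ∈ I) ∧ ∀ U ∈ I, ∀ W ∈ I, U ⊓ W ∈ I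

section lattice
variable {L : Type u} [Lattice L] [BoundedOrder L]

def Fil (I : Set L) : Prop :=
  ⊤ ∈ I ∧ ⊥ ∉ I ∧ (∀ U ∈ I, ∀ W, U ≤ W → W ∈ I) ∧ ∀ U ∈ I, ∀ W ∈ I, U ⊓ W ∈ I

lemma exists_max {A : Type u} (x : A → L) (h : ∀ s : Finset A, s.inf x ≠ ⊥) :
    ∃ m, Maximal Fil m ∧ ∀ a, x a ∈ m := by
  classical
  have h0 : Fil {Z | ∃ s : Finset A, s.inf x ≤ Z} := by
    refine ⟨⟨∅, le_top⟩, fun ⟨s, hs⟩ => h s (le_bot_iff.1 hs), fun U ⟨s, hs⟩ W hW => ⟨s, hs.trans hW⟩,
      fun U ⟨s, hs⟩ W ⟨t, ht⟩ => ⟨s ∪ t, ?_⟩⟩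
    rw [Finset.inf_union]
    exact inf_le_inf hs ht
  obtain ⟨m, hm, hmax⟩ := zorn_subset_nonempty {I : Set L | Fil I} (fun c hc hch ⟨y, hy⟩ => by
    refine ⟨⋃₀ c, ⟨⟨y, hy, (hc hy).1⟩, fun ⟨z, hz, hb⟩ => (hc hz).2.1 hb,
      fun U ⟨z, hz, hU⟩ W hW => ⟨z, hz, (hc hz).2.2.1 U hU W hW⟩,
      fun U ⟨z, hz, hU⟩ W ⟨z', hz', hW⟩ => ?_⟩, fun s hs => Set.subset_sUnion_of_mem hs⟩
    rcases hch.total hz hz' with h1 | h1
    · exact ⟨z', hz', (hc hz').2.2.2 U (h1 hU) W hW⟩
    · exact ⟨z, hz, (hc hz).2.2.2 U hU W (h1 hW)⟩) _ h0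
  exact ⟨m, hmax, fun a => hm ⟨{a}, by simp⟩⟩

lemma lower {A C : Type u} (x : A → C → L) (h1 : ∀ a c c', c ≠ c' → x a c ⊓ x a c' = ⊥)
    (h2 : ∀ (f : A → C) (s : Finset A), s.inf (fun a => x a (f a)) ≠ ⊥) :
    #C ^ #A ≤ #{m : Set L // Maximal Fil m} := by
  choose m hm hx using fun f : A → C => exists_max _ (h2 f)
  rw [power_def]
  refine mk_le_of_injective (f := fun f => ⟨m f, hm f⟩) fun f g e => ?_
  have e' : m f = m g := congrArg Subtype.val e
  funext a
  by_contra hne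
  apply (hm f).1.2.1
  rw [← h1 a _ _ hne]
  exact (hm f).1.2.2.2 _ (hx f a) _ (e' ▸ hx g a)

lemma max_sep {m : Set L} (hm : Maximal Fil m) {U : L} (hU : U ∉ m) : ∃ W ∈ m, U ⊓ W = ⊥ := by
  by_contra hc
  push Not at hc
  have h0 : Fil {Z | ∃ W ∈ m, U ⊓ W ≤ Z} := by
    refine ⟨⟨⊤, hm.1.1, le_top⟩, fun ⟨W, hW, h⟩ => hc W hW (le_bot_iff.1 h),
      fun Z ⟨W, hW, h⟩ Y hY => ⟨W, hW, h.trans hY⟩,
      fun Z ⟨W, hW, h⟩ Z' ⟨W', hW', h'⟩ => ⟨W ⊓ W', hm.1.2.2.2 W hW W' hW', ?_⟩⟩
    exact le_inf ((inf_le_inf_left _ inf_le_left).trans h) ((inf_le_inf_left _ inf_le_right).trans h')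
  exact hU (hm.2 h0 (fun W hW => ⟨W, hW, inf_le_right⟩) ⟨⊤, hm.1.1, inf_le_left⟩)
end lattice

section noeth
variable {F : Type u} [Field F] {n : Type u} [Fintype n] [DecidableEq n]
open Matrix

lemma meet_iff (U : Submodule F (n → F)) (B : Matrix n n F) :
    U ⊓ LinearMap.ker B.mulVecLin ≠ ⊥ ↔
      ∀ c q : Matrix n n F, (∀ u ∈ U, c *ᵥ u = 0) → (c + q * B).det = 0 := by
  constructor
  · intro h c q hc
    obtain ⟨v, ⟨h1, h2⟩, h0⟩ := (Submodule.ne_bot_iff _).1 h
    refine Matrix.exists_mulVec_eq_zero_iff.1 ⟨v, h0, ?_⟩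
    have h3 : B *ᵥ v = 0 := h2
    rw [add_mulVec, ← mulVec_mulVec, hc v h1, h3]; simp
  · intro h hb
    have hk : LinearMap.ker (B.mulVecLin ∘ₗ U.subtype) = ⊥ := by
      rw [eq_bot_iff]
      intro v hv
      have : (v : n → F) ∈ U ⊓ LinearMap.ker B.mulVecLin := ⟨v.2, hv⟩
      rw [hb] at this
      exact Subtype.ext this
    obtain ⟨g, hg⟩ := LinearMap.exists_leftInverse_of_injective _ hk
    have := h (1 - LinearMap.toMatrix' (U.subtype ∘ₗ g) * B) (LinearMap.toMatrix' (U.subtype ∘ₗ g))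
      (fun u hu => by
        rw [sub_mulVec, one_mulVec, ← mulVec_mulVec, LinearMap.toMatrix'_mulVec, sub_eq_zero]
        exact (congrArg Subtype.val (LinearMap.congr_fun hg ⟨u, hu⟩)).symm)
    simp at this

lemma noeth {X : Type u} (w : X → Submodule F (n → F)) (C : Set X) :
    ∃ T : Finset X, ↑T ⊆ C ∧ ∀ U, (∀ x ∈ T, U ⊓ w x ≠ ⊥) → ∀ x ∈ C, U ⊓ w x ≠ ⊥ := by
  classical
  have hB : ∀ x, ∃ B : Matrix n n F, LinearMap.ker B.mulVecLin = w x := by
    intro x
    obtain ⟨W', hW'⟩ := (w x).exists_isCompl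
    refine ⟨LinearMap.toMatrix' (W'.subtype ∘ₗ W'.projectionOnto (w x) hW'.symm), ?_⟩
    ext v
    simp [LinearMap.toMatrix'_mulVec]
  choose B hB using hB
  let p : X → MvPolynomial (Bool × n × n) F := fun x =>
    (Matrix.of (fun i j => MvPolynomial.X (false, i, j)) +
      Matrix.of (fun i j => MvPolynomial.X (true, i, j)) * (B x).map MvPolynomial.C).det
  have hp : ∀ (c q : Matrix n n F) x, MvPolynomial.eval
      (fun t : Bool × n × n => if t.1 then q t.2.1 t.2.2 else c t.2.1 t.2.2) (p x) =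
      (c + q * B x).det := by
    intro c q x
    simp only [p, RingHom.map_det, map_add, map_mul]
    congr 2
    · ext i j; simp
    · congr 1 <;> ext i j <;> simp
  obtain ⟨s, hs, e⟩ := (Submodule.fg_span_iff_fg_span_finset_subset (p '' C)).1
    (IsNoetherian.noetherian (R := MvPolynomial (Bool × n × n) F) _)
  obtain ⟨T, hT, rfl⟩ := Finset.subset_set_image_iff.1 hs
  refine ⟨T, hT, fun U hU x hx => ?_⟩
  rw [← hB, meet_iff]
  intro c q hc
  have h1 : p x ∈ Submodule.span (MvPolynomial (Bool × n × n) F) ↑(T.image p) := by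
    rw [← e]; exact Submodule.subset_span ⟨x, hx, rfl⟩
  have h2 : Submodule.span (MvPolynomial (Bool × n × n) F) ↑(T.image p) ≤ RingHom.ker
      (MvPolynomial.eval
        (fun t : Bool × n × n => if t.1 then q t.2.1 t.2.2 else c t.2.1 t.2.2)) := by
    rw [Submodule.span_le]
    intro y hy
    obtain ⟨z, hz, rfl⟩ := Finset.mem_image.1 hy
    have := hU z hz
    rw [← hB, meet_iff] at this
    exact (hp c q z).trans (this c q hc)
  rw [← hp]
  exact h2 h1
end noeth

section upper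
variable {F V ι : Type u} [Field F] [AddCommGroup V] [Module F V] (b : Module.Basis ι F V)

noncomputable def res (S : Finset ι) (W : Submodule F V) : Submodule F (S → F) :=
  W.comap (Fintype.linearCombination F fun s : S => b s)

lemma meet_res (U W : Submodule F V) : U ⊓ W ≠ ⊥ ↔ ∃ S, res b S U ⊓ res b S W ≠ ⊥ := by
  constructor
  · intro h
    obtain ⟨v, hv, h0⟩ := (Submodule.ne_bot_iff _).1 h
    have e : Fintype.linearCombination F (fun s : (b.repr v).support => b s)
        (fun s => b.repr v s) = v := by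
      rw [Fintype.linearCombination_apply,
        Finset.sum_coe_sort (b.repr v).support (fun s => b.repr v s • b s)]
      exact b.linearCombination_repr v
    refine ⟨(b.repr v).support, (Submodule.ne_bot_iff _).2 ⟨fun s => b.repr v s, ⟨?_, ?_⟩, ?_⟩⟩
    · simp only [res, SetLike.mem_coe, Submodule.mem_comap, e]; exact hv.1
    · simp only [res, SetLike.mem_coe, Submodule.mem_comap, e]; exact hv.2
    · intro h1
      rw [h1, map_zero] at e
      exact h0 e.symm
  · rintro ⟨S, h⟩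
    obtain ⟨v, hv, h0⟩ := (Submodule.ne_bot_iff _).1 h
    refine (Submodule.ne_bot_iff _).2 ⟨_, ⟨hv.1, hv.2⟩, fun e => h0 ?_⟩
    have := (b.linearIndependent.comp (fun s : S => (s : ι))
      Subtype.val_injective).fintypeLinearCombination_injective
    exact this (e.trans (map_zero _).symm)

abbrev Tr (ι : Type u) := WType fun a : Set (Finset ι × ULift.{u} ℕ) => ↥a

def Good (m : Set (Submodule F V)) (a : Set (Finset ι × ULift.{u} ℕ)) (x : a → Submodule F V)
    (W : Submodule F V) : Prop :=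
  W ∈ m ∧ ∀ S, ∃ U, (∀ i : a, i.1.1 = S → U ⊓ res b S (x i) ≠ ⊥) ∧ U ⊓ res b S W = ⊥

open Classical in
noncomputable def ev (m : Set (Submodule F V)) : Tr ι → Submodule F V :=
  WType.elim _ fun p => if h : ∃ W, Good b m p.1 p.2 W then h.choose else ⊤

lemma ev_mem {m : Set (Submodule F V)} (hm : ⊤ ∈ m) (t : Tr ι) : ev b m t ∈ m := by
  obtain ⟨a, f⟩ := t
  simp only [ev, WType.elim]
  split_ifs with h
  · exact h.choose_spec.1
  · exact hm

lemma ev_sep {m : Set (Submodule F V)} {U W : Submodule F V} (hW : W ∈ m) (h : U ⊓ W = ⊥) :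
    ∃ t, U ⊓ ev b m t = ⊥ := by
  classical
  choose T hT1 hT2 using fun S : Finset ι => noeth (fun t : Tr ι => res b S (ev b m t))
    {t | res b S U ⊓ res b S (ev b m t) ≠ ⊥}
  let a : Set (Finset ι × ULift.{u} ℕ) := {i | i.2.down < (T i.1).toList.length}
  let f : a → Tr ι := fun i => (T i.1.1).toList[i.1.2.down]'i.2
  have hf : ∀ i : a, f i ∈ T i.1.1 := fun i => Finset.mem_toList.1 (List.getElem_mem _)
  have hex : ∃ W, Good b m a (fun i => ev b m (f i)) W := by
    refine ⟨W, hW, fun S => ⟨res b S U, ?_, ?_⟩⟩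
    · rintro i rfl
      exact hT1 _ (hf i)
    · by_contra hc
      exact (meet_res b U W).2 ⟨S, hc⟩ h
  have e : ev b m ⟨a, f⟩ = hex.choose := by
    simp only [ev, WType.elim]
    exact dif_pos hex
  refine ⟨⟨a, f⟩, ?_⟩
  by_contra hc
  obtain ⟨S, hS⟩ := (meet_res b _ _).1 hc
  obtain ⟨U', h1, h2⟩ := hex.choose_spec.2 S
  refine hT2 S U' (fun x hx => ?_) ⟨a, f⟩ hS (by rw [e]; exact h2)
  obtain ⟨k, hk, rfl⟩ := List.getElem_of_mem (Finset.mem_toList.2 hx)
  exact h1 ⟨(S, ⟨k⟩), hk⟩ rfl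

lemma card_Tr [Infinite ι] : #(Tr ι) ≤ 2 ^ #ι := by
  have hI : #(Finset ι × ULift.{u} ℕ) = #ι := by
    simp [mk_finset_of_infinite]
  apply WType.cardinalMk_le_of_le
  have h1 : ∀ a : Set (Finset ι × ULift.{u} ℕ), ((2 : Cardinal.{u}) ^ #ι) ^ #a ≤ (2 : Cardinal.{u}) ^ #ι := by
    intro a
    rw [← power_mul]
    refine power_le_power_left two_ne_zero ?_
    have : #a ≤ #ι := hI ▸ mk_set_le a
    exact (mul_le_mul_right this _).trans (mul_eq_self (aleph0_le_mk ι)).le
  refine (sum_le_sum _ _ h1).trans ?_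
  rw [sum_const', mk_set, hI, mul_eq_self]
  exact (aleph0_le_mk ι).trans (cantor _).le

include b in
lemma card_sub [Infinite ι] : #(Submodule F V) ≤ #F ^ #ι := by
  have h2 : (2 : Cardinal) ≤ #F := two_le_iff.2 ⟨0, 1, zero_ne_one⟩
  have h1 : #(Submodule F V) ≤ #(ι → V) := by
    refine mk_le_of_surjective (f := fun f => LinearMap.range (b.constr F f)) fun W => ?_
    obtain ⟨W', hW'⟩ := W.exists_isCompl
    refine ⟨(b.constr F).symm (W.subtype ∘ₗ W.projectionOnto W' hW'), ?_⟩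
    simp only [LinearEquiv.apply_symm_apply]
    rw [LinearMap.range_comp, Submodule.range_projectionOnto]
    simp
  have hV : #V ≤ #F ^ #ι := by
    rw [b.repr.toEquiv.cardinal_eq, mk_finsupp_of_infinite]
    exact max_le ((cantor _).le.trans (power_le_power_right h2))
      (self_le_power _ (one_le_aleph0.trans (aleph0_le_mk ι)))
  refine h1.trans ?_
  rw [← power_def]
  refine (power_le_power_right hV).trans ?_
  rw [← power_mul, mul_eq_self (aleph0_le_mk ι)]

include b in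
lemma upper_fil [Infinite ι] : #{m : Set (Submodule F V) // Maximal Fil m} ≤ #F ^ ((2 : Cardinal.{u}) ^ #ι) := by
  have h1 : #{m : Set (Submodule F V) // Maximal Fil m} ≤ #(Tr ι → Submodule F V) := by
    refine mk_le_of_injective (f := fun m => ev b m.1) ?_
    have key : ∀ m m' : {m : Set (Submodule F V) // Maximal Fil m}, ev b m.1 = ev b m'.1 →
        m.1 ⊆ m'.1 := by
      intro m m' e U hU
      by_contra hc
      obtain ⟨W, hW, h⟩ := max_sep m'.2 hc
      obtain ⟨t, ht⟩ := ev_sep b hW h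
      apply m.2.1.2.1
      rw [← ht, ← e]
      exact m.2.1.2.2.2 _ hU _ (ev_mem b m.2.1.1 t)
    intro m m' e
    exact Subtype.ext ((key m m' e).antisymm (key m' m e.symm))
  have h0 : #F ≠ 0 := mk_ne_zero F
  refine h1.trans ?_
  rw [← power_def]
  refine (power_le_power_right (card_sub b)).trans ?_
  rw [← power_mul]
  refine power_le_power_left h0 ?_
  refine (mul_le_mul' (cantor _).le card_Tr).trans (mul_eq_self ?_).le
  exact (aleph0_le_mk ι).trans (cantor _).le
end upper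

section lowerfil
variable (F : Type u) [Field F] {ι : Type u}
open Classical

noncomputable def xf (α : Set ι) (c : F) : Submodule F (Finset ι × Finset (Finset ι) →₀ F) where
  carrier := {v | ∀ (s : Finset ι) (B : Finset (Finset ι)), s.filter (· ∈ α) ∉ B →
    v (s, insert (s.filter (· ∈ α)) B) = c * v (s, B)}
  add_mem' := by
    intro v w hv hw s B h
    simp only [Finsupp.add_apply, hv s B h, hw s B h, mul_add]
  zero_mem' := by intro s B _; simp
  smul_mem' := by
    intro r v hv s B h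
    simp only [Finsupp.smul_apply, hv s B h, smul_eq_mul]; ring

lemma xf1 (α : Set ι) (c c' : F) (h : c ≠ c') : xf F α c ⊓ xf F α c' = ⊥ := by
  rw [eq_bot_iff]
  rintro v ⟨h1, h2⟩
  have k : ∀ (s : Finset ι) (B : Finset (Finset ι)), s.filter (· ∈ α) ∉ B → v (s, B) = 0 := by
    intro s B hB
    have := (h1 s B hB).symm.trans (h2 s B hB)
    exact (mul_eq_mul_right_iff.1 this).resolve_left h
  rw [Submodule.mem_bot]
  ext ⟨s, B⟩
  by_cases hB : s.filter (· ∈ α) ∈ B
  · have := h1 s (B.erase (s.filter (· ∈ α))) (Finset.notMem_erase _ _)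
    rw [Finset.insert_erase hB, k s _ (Finset.notMem_erase _ _), mul_zero] at this
    exact this
  · exact k s B hB

lemma xf2 (f : Set ι → F) (A : Finset (Set ι)) : A.inf (fun α => xf F α (f α)) ≠ ⊥ := by
  have h1 : ∀ p : Set ι × Set ι, ∃ s : Finset ι,
      (∀ i ∈ s, i ∈ p.1 ↔ i ∈ p.2) → p.1 = p.2 := by
    intro p
    by_cases h : p.1 = p.2
    · exact ⟨∅, fun _ => h⟩
    · obtain ⟨i, hi⟩ := not_forall.1 (fun k => h (Set.ext k))
      exact ⟨{i}, fun k => absurd (k i (by simp)) hi⟩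
  choose sp hsp using h1
  let s0 : Finset ι := (A ×ˢ A).biUnion sp
  have hinj : ∀ α ∈ A, ∀ β ∈ A, s0.filter (· ∈ α) = s0.filter (· ∈ β) → α = β := by
    intro α hα β hβ e
    refine hsp (α, β) fun i hi => ?_
    have hi0 : i ∈ s0 := Finset.mem_biUnion.2 ⟨(α, β), Finset.mem_product.2 ⟨hα, hβ⟩, hi⟩
    have := Finset.ext_iff.1 e i
    simpa [hi0] using this
  let c : Finset ι → F := fun i => if h : ∃ α ∈ A, s0.filter (· ∈ α) = i then f h.choose else 0
  have hc : ∀ α ∈ A, c (s0.filter (· ∈ α)) = f α := by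
    intro α hα
    have h : ∃ β ∈ A, s0.filter (· ∈ β) = s0.filter (· ∈ α) := ⟨α, hα, rfl⟩
    simp only [c, dif_pos h]
    rw [hinj _ h.choose_spec.1 α hα h.choose_spec.2]
  let v : Finset ι × Finset (Finset ι) →₀ F := Finsupp.onFinset ({s0} ×ˢ s0.powerset.powerset)
    (fun p => if p.1 = s0 ∧ p.2 ⊆ s0.powerset then ∏ i ∈ p.2, c i else 0) (by
      intro p hp
      have : p.1 = s0 ∧ p.2 ⊆ s0.powerset := by
        by_contra h; exact hp (if_neg h)
      exact Finset.mem_product.2 ⟨Finset.mem_singleton.2 this.1, Finset.mem_powerset.2 this.2⟩)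
  refine (Submodule.ne_bot_iff _).2 ⟨v, ?_, fun e => ?_⟩
  · rw [Submodule.mem_finsetInf]
    intro α hα s B hB
    simp only [v, Finsupp.onFinset_apply]
    by_cases hs : s = s0
    · subst hs
      by_cases hB' : B ⊆ s0.powerset
      · rw [if_pos ⟨rfl, Finset.insert_subset (by simp) hB'⟩, if_pos ⟨rfl, hB'⟩,
          Finset.prod_insert hB, hc α hα]
      · rw [if_neg (fun h => hB' ((Finset.subset_insert _ _).trans h.2)),
          if_neg (fun h => hB' h.2), mul_zero]
    · simp [hs]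
  · have := DFunLike.congr_fun e (s0, ∅)
    simp [v] at this
end lowerfil

section loweridl
variable {F : Type u} [Field F] {ι : Type u}
open MvPolynomial Classical

noncomputable def ell (f : ι → F) (M : Finset (ι →₀ ℕ)) : MvPolynomial (ι →₀ ℕ) F :=
  ∑ d ∈ M, X d * C (∏ i ∈ d.support, f i ^ d i)

noncomputable def xi (f : ι → F) (c : F) :
    Submodule F (Finset (ι →₀ ℕ) →₀ MvPolynomial (ι →₀ ℕ) F) where
  carrier := {v | ∀ M, (ell f M - C c) ∣ v M}
  add_mem' := fun hv hw M => dvd_add (hv M) (hw M)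
  zero_mem' := fun M => dvd_zero _
  smul_mem' := by
    intro r v hv M
    rw [Finsupp.smul_apply, smul_eq_C_mul]
    exact (hv M).mul_left _

lemma xi1 (f : ι → F) (c c' : F) (h : c ≠ c') : xi f c ⊔ xi f c' = ⊤ := by
  rw [eq_top_iff]
  intro v _
  let w : F → (Finset (ι →₀ ℕ) →₀ MvPolynomial (ι →₀ ℕ) F) := fun c =>
    Finsupp.onFinset v.support (fun M => (ell f M - C c) * v M) (fun M hM => by
      rw [Finsupp.mem_support_iff]; exact right_ne_zero_of_mul hM)
  have hw : ∀ c, w c ∈ xi f c := fun c M => Dvd.intro _ rfl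
  have e : v = (c' - c)⁻¹ • (w c - w c') := by
    ext1 M
    simp only [w, Finsupp.smul_apply, Finsupp.sub_apply, Finsupp.onFinset_apply, smul_eq_C_mul]
    have : (C (c' - c)⁻¹ : MvPolynomial (ι →₀ ℕ) F) * (C c' - C c) = 1 := by
      rw [← C_sub, ← C_mul, inv_mul_cancel₀ (sub_ne_zero.2 h.symm), C_1]
    linear_combination (-v M) * this
  rw [e]
  exact Submodule.smul_mem _ _ (Submodule.sub_mem _ (Submodule.mem_sup_left (hw c))
    (Submodule.mem_sup_right (hw c')))

lemma interp (g : (ι → F) → F) (A : Finset (ι → F)) :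
    ∃ p : MvPolynomial ι F, ∀ f ∈ A, eval f p = g f := by
  have h1 : ∀ f f' : ι → F, ∃ q : MvPolynomial ι F, eval f q = 1 ∧ (f' ≠ f → eval f' q = 0) := by
    intro f f'
    by_cases h : f' = f
    · exact ⟨1, by simp, fun k => absurd h k⟩
    · obtain ⟨i, hi⟩ := Function.ne_iff.1 h
      refine ⟨(X i - C (f' i)) * C (f i - f' i)⁻¹, ?_, fun _ => by simp⟩
      simp [mul_inv_cancel₀ (sub_ne_zero.2 hi.symm)]
  choose q hq1 hq2 using h1
  refine ⟨∑ f ∈ A, C (g f) * ∏ f' ∈ A, q f f', fun f hf => ?_⟩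
  rw [map_sum, Finset.sum_eq_single f]
  · simp [hq1]
  · intro f1 _ h
    rw [map_mul, map_prod, Finset.prod_eq_zero hf (hq2 f1 f h.symm), mul_zero]
  · intro h; exact absurd hf h

lemma xi2 (g : (ι → F) → F) (A : Finset (ι → F)) : A.sup (fun f => xi f (g f)) ≠ ⊤ := by
  obtain ⟨p, hp⟩ := interp g A
  let φ : (Finset (ι →₀ ℕ) →₀ MvPolynomial (ι →₀ ℕ) F) →ₗ[F] F :=
    (aeval fun d => coeff d p).toLinearMap ∘ₗ Finsupp.lapply p.support
  have h : A.sup (fun f => xi f (g f)) ≤ LinearMap.ker φ := by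
    refine Finset.sup_le fun f hf v hv => ?_
    obtain ⟨r, hr⟩ := hv p.support
    have : aeval (fun d => coeff d p) (ell f p.support) = g f := by
      rw [← hp f hf, eval_eq]
      simp [ell]
    change aeval (fun d => coeff d p) (v p.support) = 0
    rw [hr, map_mul, map_sub, this]
    simp
  intro e
  have : φ (Finsupp.single p.support 1) = 0 := h (e ▸ Submodule.mem_top)
  simp [φ] at this
end loweridl

theorem result (F V : Type u) [Field F] [AddCommGroup V] [Module F V]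
    (hκ : ℵ₀ ≤ Module.rank F V) :
    #{I : Set (Submodule F V) // Maximal IsIdl I} = 2 ^ (#F ^ Module.rank F V) ∧
    #{I : Set (Submodule F V) // Maximal IsFil I} = #F ^ ((2 : Cardinal.{u}) ^ Module.rank F V) := by
  obtain ⟨ι, b, hr⟩ : ∃ (ι : Type u) (_ : Module.Basis ι F V), Module.rank F V = #ι :=
    ⟨_, Module.Free.chooseBasis F V, Module.Free.rank_eq_card_chooseBasisIndex F V⟩
  rw [hr] at hκ ⊢
  haveI : Infinite ι := infinite_iff.2 hκ
  have h2 : (2 : Cardinal) ≤ #F := two_le_iff.2 ⟨0, 1, zero_ne_one⟩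
  have hN : #(ι →₀ ℕ) = #ι := by rw [mk_finsupp_nat, max_eq_left hκ]
  constructor
  · apply le_antisymm
    · refine (mk_subtype_le _).trans ?_
      rw [mk_set]
      exact power_le_power_left two_ne_zero (card_sub b)
    · obtain ⟨e⟩ : Nonempty ((Finset (ι →₀ ℕ) →₀ MvPolynomial (ι →₀ ℕ) F) ≃ₗ[F] V) := by
        apply LinearEquiv.nonempty_equiv_iff_rank_eq.2
        rw [rank_finsupp', MvPolynomial.rank_eq, mk_finset_of_infinite, mk_finsupp_nat (ι →₀ ℕ), hN, hr,
          max_eq_left hκ, mul_eq_self hκ]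
      let o := Submodule.orderIsoMapComap e
      have := lower (L := (Submodule F V)ᵒᵈ) (fun f c => OrderDual.toDual (o (xi f c)))
        (fun f c c' h => by
          change o (xi f c) ⊔ o (xi f c') = ⊤
          rw [← map_sup, xi1 f c c' h, map_top])
        (fun g A h => by
          apply xi2 g A
          apply o.injective
          rw [map_finset_sup, map_top]
          exact h)
      rw [← power_def] at this
      exact (power_le_power_right h2).trans this
  · refine le_antisymm (upper_fil b) ?_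
    obtain ⟨e⟩ : Nonempty ((Finset ι × Finset (Finset ι) →₀ F) ≃ₗ[F] V) := by
      apply LinearEquiv.nonempty_equiv_iff_rank_eq.2
      rw [rank_finsupp_self', hr]
      simp [mk_finset_of_infinite, mul_eq_self hκ]
    let o := Submodule.orderIsoMapComap e
    have := lower (L := Submodule F V) (fun α c => o (xf F α c))
      (fun α c c' h => by rw [← map_inf, xf1 F α c c' h, map_bot])
      (fun g A h => by
        apply xf2 F g A
        apply o.injective
        rw [map_finset_inf, map_bot]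
        exact h)
    rw [mk_set] at this
    exact this

end Pool.Agent.Results.MP_f0da7f_al.Count
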